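import Pool.Agent.R611.Cyc5

/-!
# A dp-minimal theory of low VC-density that is not weakly VC-minimal
-/

namespace Pool.Agent.Results.MP_670fc8_lc.DenseCyclicOrder

open FirstOrder Language Pool.Agent.R611

universe w

/-- There is a complete theory `T` (in a countable language) such that, in every model of `T`
(in particular in its monster models), `T` is dp-minimal, has low VC-density and is not weakly
VC-minimal. -/
theorem result : ∃ (L : FirstOrder.Language.{0, 0}) (T : L.Theory), T.IsComplete ∧
    ∀ (M : Type w) [L.Structure M] [M ⊨ T],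
      DpMinimal L M ∧ LowVCDensity L M ∧ ¬ WeaklyVCMinimal L M := by
  refine ⟨LCyc, LCyc.completeTheory ℚ, (completeTheory.isMaximal LCyc ℚ).isComplete, ?_⟩
  intro M _ _
  have h := dco_of_model M
  obtain ⟨a, _, _⟩ := h.nontriv
  exact ⟨dpMin h a, lowVC h a, not_weak h⟩

end Pool.Agent.Results.MP_670fc8_lc.DenseCyclicOrder
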